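import Pool.Agent.Helper56.CY.StepArc
import Pool.Agent.Helper21.CY.PlaneVanish

/-!
# CY-13: one step of the self-map on arcs, from `solve_normal` only
-/

namespace Pool.Agent.Helper56.CY

open MvPolynomial Pool.Agent.Helper76.CY

/-- One step of the self-map on arcs, from the normal direction of the residual plane. -/
theorem step_arc_of_solve {K O : Type*} [Field K] [CharZero K] [CommRing O] [Algebra K O] (t : O)
    (hU : ∀ (x : O) (c : K), c ≠ 0 → x - algebraMap K O c ∈ Ideal.span {t} → IsUnit x)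
    (D : Ten K) (hD : Window D) (τ τ' : Idx → K) (hτ : IsStep D τ τ') (a : Idx → O)
    (ha : IsArc t D τ a)
    (solve : ∀ m0 : Fin 10 → K, m0 0 = 0 → m0 1 = 0 → m0 2 = 0 → m0 3 = 0 →
      (∀ i j : Fin 3, tri D m0 (bv K (c3 i)) (bv K (c3 j)) +
        tri D (bv K 3) (tv τ i) (bv K (c3 j)) + tri D (bv K 3) (bv K (c3 i)) (tv τ j) = 0) →
      ∃ m : Fin 10 → O, m 0 = 0 ∧ m 1 = 0 ∧ m 2 = 0 ∧ m 3 = 0 ∧
        (∀ i j : Fin 3, tri D (bv O 3 + m) (row a i) (row a j) = 0) ∧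
        ∀ k, m k - t * algebraMap K O (m0 k) ∈ Ideal.span {t ^ 2}) :
    ∃ a' : Idx → O, IsArc t (shift D) τ' a' :=
  step_arc_of t hU D hD τ τ' hτ a ha solve
    (fun u n hu hn κ1 κ2 κ3 h1 h2 h3 w hw i j k =>
      Pool.Agent.Helper21.CY.plane_vanish D hD.swap12 hD.swap23 u n hu hn κ1 κ2 κ3 h1 h2 h3 w hw
        i j k)
    (fun w hw M i j k => Pool.Agent.Helper21.CY.plane_comb D w hw M i j k)

end Pool.Agent.Helper56.CY
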