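import Pool.Agent.Helper76.CY.Lin

/-!
# CY-13: one step of the self-map on arcs
-/

namespace Pool.Agent.Helper56.CY

open MvPolynomial Pool.Agent.Helper76.CY

section

variable {K O : Type*} [Field K] [CommRing O] [Algebra K O]

/-- `X = x + t x₁` modulo `t ^ 2`. -/
def Jet (t : O) (X : Fin 10 → O) (x x₁ : Fin 10 → K) : Prop :=
  ∀ i, X i - (algebraMap K O (x i) + t * algebraMap K O (x₁ i)) ∈ Ideal.span {t ^ 2}

theorem tri_up (D : Ten K) (x y z : Fin 10 → K) :
    tri D (fun i => algebraMap K O (x i)) (fun i => algebraMap K O (y i))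
      (fun i => algebraMap K O (z i)) = algebraMap K O (tri D x y z) :=
  (tri_map D (Algebra.ofId K O) x y z).symm

theorem tri_congr (D : Ten K) (I : Ideal O) {x x' y y' z z' : Fin 10 → O}
    (hx : ∀ i, x i - x' i ∈ I) (hy : ∀ i, y i - y' i ∈ I) (hz : ∀ i, z i - z' i ∈ I) :
    tri D x y z - tri D x' y' z' ∈ I := by
  have e : tri D x y z - tri D x' y' z' =
      tri D (x - x') y z + tri D x' (y - y') z + tri D x' y' (z - z') := by
    rw [tri_sub_left, tri_sub_mid, tri_sub_right]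
    ring
  rw [e]
  exact I.add_mem (I.add_mem (tri_mem_left D I hx y z) (tri_mem_mid D I x' hy z))
    (tri_mem_right D I x' y' hz)

theorem tri_jet (D : Ten K) {t : O} {X Y Z : Fin 10 → O} {x x₁ y y₁ z z₁ : Fin 10 → K}
    (hX : Jet t X x x₁) (hY : Jet t Y y y₁) (hZ : Jet t Z z z₁) :
    tri D X Y Z - (algebraMap K O (tri D x y z) +
      t * algebraMap K O (tri D x₁ y z + tri D x y₁ z + tri D x y z₁)) ∈ Ideal.span {t ^ 2} := by
  have h1 := tri_congr D (Ideal.span {t ^ 2})
    (x' := (fun i => algebraMap K O (x i)) + t • (fun i => algebraMap K O (x₁ i)))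
    (y' := (fun i => algebraMap K O (y i)) + t • (fun i => algebraMap K O (y₁ i)))
    (z' := (fun i => algebraMap K O (z i)) + t • (fun i => algebraMap K O (z₁ i))) hX hY hZ
  have h2 : tri D ((fun i => algebraMap K O (x i)) + t • (fun i => algebraMap K O (x₁ i)))
      ((fun i => algebraMap K O (y i)) + t • (fun i => algebraMap K O (y₁ i)))
      ((fun i => algebraMap K O (z i)) + t • (fun i => algebraMap K O (z₁ i))) -
      (algebraMap K O (tri D x y z) +
      t * algebraMap K O (tri D x₁ y z + tri D x y₁ z + tri D x y z₁)) ∈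
      Ideal.span {t ^ 2} := by
    simp only [tri_add_left, tri_add_mid, tri_add_right, tri_smul_left, tri_smul_mid,
      tri_smul_right, tri_up, map_add]
    rw [Ideal.mem_span_singleton]
    refine ⟨algebraMap K O (tri D x y₁ z₁) + algebraMap K O (tri D x₁ y z₁) +
      algebraMap K O (tri D x₁ y₁ z) + t * algebraMap K O (tri D x₁ y₁ z₁), ?_⟩
    ring
  have := Ideal.add_mem _ h1 h2
  rwa [sub_add_sub_cancel] at this

theorem kappa_jet {t A B κ : O} {α β c : K} (hA : A - algebraMap K O α ∈ Ideal.span {t})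
    (hB : B - t * algebraMap K O β ∈ Ideal.span {t ^ 2}) (hβ : c * α = β) (hu : IsUnit A)
    (hκ : κ * A = B) : κ - t * algebraMap K O c ∈ Ideal.span {t ^ 2} := by
  rw [← Ideal.unit_mul_mem_iff_mem _ hu]
  rw [Ideal.mem_span_singleton] at hA hB ⊢
  obtain ⟨y, hy⟩ := hA
  obtain ⟨z, hz⟩ := hB
  refine ⟨z - algebraMap K O c * y, ?_⟩
  have hβ' : algebraMap K O c * algebraMap K O α = algebraMap K O β := by rw [← map_mul, hβ]
  linear_combination hκ + hz - t * algebraMap K O c * hy - t * hβ'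

theorem span_sq_le (t : O) : Ideal.span {t ^ 2} ≤ Ideal.span {t} := by
  rw [Ideal.span_singleton_le_span_singleton]
  exact ⟨t, by ring⟩

theorem mem_of_jet {t x : O} {c : K} (h : x - t * algebraMap K O c ∈ Ideal.span {t ^ 2}) :
    x ∈ Ideal.span {t} := by
  have h1 := span_sq_le t h
  have h2 : t * algebraMap K O c ∈ Ideal.span {t} :=
    Ideal.mul_mem_right _ _ (Ideal.mem_span_singleton_self t)
  have := Ideal.add_mem _ h1 h2
  rwa [sub_add_cancel] at this

theorem mul_mem_sq {t x y : O} (hx : x ∈ Ideal.span {t}) (hy : y ∈ Ideal.span {t}) :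
    x * y ∈ Ideal.span {t ^ 2} := by
  rw [Ideal.mem_span_singleton] at hx hy ⊢
  rw [pow_two]
  exact mul_dvd_mul hx hy

theorem jet_row {t : O} {D : Ten K} {τ : Idx → K} {a : Idx → O} (ha : IsArc t D τ a)
    (i : Fin 3) : Jet t (row a i) (bv K (c3 i)) (tv τ i) := by
  intro j
  have e : row a i j - (algebraMap K O (bv K (c3 i) j) + t * algebraMap K O (tv τ i j)) =
      tv a i j - t * algebraMap K O (tv τ i j) := by
    have : algebraMap K O (bv K (c3 i) j) = bv O (c3 i) j := by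
      rw [bv_apply, bv_apply]
      split_ifs <;> simp
    rw [this, row, Pi.add_apply]
    ring
  rw [e]
  by_cases h : (j : ℕ) < 3
  · simp [tv, h]
  · simpa [tv, h] using ha.tangent (i, ⟨(j : ℕ) - 3, by omega⟩)

/-- Coordinate of the row of a chart matrix after the shift of the coordinates. -/
theorem row_shift (w : Fin 3 → Fin 10 → O)
    (hw : ∀ i j : Fin 3, w i (c3 j + 1) = if j = i then 1 else 0) (i : Fin 3) :
    row (fun q : Idx => w q.1 (Fin.castLE (by norm_num) q.2 + 4)) i = fun j => w i (j + 1) := by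
  funext j
  rw [row, Pi.add_apply, bv_apply]
  by_cases h : (j : ℕ) < 3
  · have hj : j = c3 ⟨j, h⟩ := by
      ext
      simp [c3]
    have h1 : tv (fun q : Idx => w q.1 (Fin.castLE (by norm_num) q.2 + 4)) i j = 0 := by
      simp [tv, h]
    rw [h1, add_zero]
    have h2 := hw i ⟨j, h⟩
    rw [← hj] at h2
    rw [h2]
    have : (j = c3 i) ↔ ((⟨j, h⟩ : Fin 3) = i) := by
      rw [Fin.ext_iff, Fin.ext_iff]
      simp [c3]
    simp only [this]
  · have h1 : (if j = c3 i then (1 : O) else 0) = 0 := by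
      rw [if_neg]
      intro hji
      apply h
      rw [hji]
      simp [c3]
    rw [h1, zero_add, tv, dif_neg h]
    congr 1
    ext
    simp only [Fin.val_add, Fin.val_castLE]
    simp
    omega

theorem jet_sub_smul {t κ : O} {c : K} {X Y : Fin 10 → O} {x x₁ y y₁ : Fin 10 → K}
    (hX : Jet t X x x₁) (hY : Jet t Y y y₁) (hκ : κ - t * algebraMap K O c ∈ Ideal.span {t ^ 2}) :
    Jet t (X - κ • Y) x (x₁ - c • y) := by
  intro j
  have h1 := hX j
  have h2 := hY j
  rw [Ideal.mem_span_singleton] at h1 h2 hκ ⊢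
  obtain ⟨u, hu⟩ := h1
  obtain ⟨v, hv⟩ := h2
  obtain ⟨s, hs⟩ := hκ
  simp only [Pi.sub_apply, Pi.smul_apply, smul_eq_mul, map_sub, map_mul]
  refine ⟨u - s * Y j - algebraMap K O c * algebraMap K O (y₁ j) - t * algebraMap K O c * v, ?_⟩
  linear_combination hu - Y j * hs - t * algebraMap K O c * hv

/-- One step of the self-map on arcs, from the normal direction of the residual plane and the two
statements on planes in the cubic. -/
theorem step_arc_of [CharZero K] (t : O)
    (hU : ∀ (x : O) (c : K), c ≠ 0 → x - algebraMap K O c ∈ Ideal.span {t} → IsUnit x)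
    (D : Ten K) (hD : Window D) (τ τ' : Idx → K) (hτ : IsStep D τ τ') (a : Idx → O)
    (ha : IsArc t D τ a)
    (solve : ∀ m0 : Fin 10 → K, m0 0 = 0 → m0 1 = 0 → m0 2 = 0 → m0 3 = 0 →
      (∀ i j : Fin 3, tri D m0 (bv K (c3 i)) (bv K (c3 j)) +
        tri D (bv K 3) (tv τ i) (bv K (c3 j)) + tri D (bv K 3) (bv K (c3 i)) (tv τ j) = 0) →
      ∃ m : Fin 10 → O, m 0 = 0 ∧ m 1 = 0 ∧ m 2 = 0 ∧ m 3 = 0 ∧
        (∀ i j : Fin 3, tri D (bv O 3 + m) (row a i) (row a j) = 0) ∧
        ∀ k, m k - t * algebraMap K O (m0 k) ∈ Ideal.span {t ^ 2})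
    (vanish : ∀ (u : Fin 3 → Fin 10 → O) (n : Fin 10 → O)
      (_ : ∀ i j k, tri D (u i) (u j) (u k) = 0)
      (_ : ∀ i j, tri D n (u i) (u j) = 0) (κ1 κ2 κ3 : O)
      (_ : κ1 * tri D (u 0) n n = tri D (u 1) n n)
      (_ : κ2 * tri D (u 0) n n = tri D (u 2) n n)
      (_ : 3 * (κ3 * tri D (u 0) n n) = tri D n n n) (w : Fin 3 → Fin 10 → O)
      (_ : w = ![u 1 - κ1 • u 0, u 2 - κ2 • u 0, n - κ3 • u 0]) (i j k : Fin 3),
      tri D (w i) (w j) (w k) = 0)
    (comb : ∀ (w : Fin 3 → Fin 10 → O) (_ : ∀ i j k, tri D (w i) (w j) (w k) = 0)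
      (M : Fin 3 → Fin 3 → O) (i j k : Fin 3),
      tri D (∑ l, M i l • w l) (∑ l, M j l • w l) (∑ l, M k l • w l) = 0) :
    ∃ a' : Idx → O, IsArc t (shift D) τ' a' := by
  obtain ⟨m0, c, h0, h1, h2, h3, hm0, hc0, hc1, hc2, hτ'⟩ := hτ
  obtain ⟨m, g0, g1, g2, g3, gm, gt⟩ := solve m0 h0 h1 h2 h3 hm0
  have ju := jet_row ha
  have jn : Jet t (bv O 3 + m) (bv K 3) m0 := by
    intro j
    have e : (bv O 3 + m) j - (algebraMap K O (bv K 3 j) + t * algebraMap K O (m0 j)) =
        m j - t * algebraMap K O (m0 j) := by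
      have : algebraMap K O (bv K 3 j) = bv O 3 j := by
        rw [bv_apply, bv_apply]
        split_ifs <;> simp
      rw [this, Pi.add_apply]
      ring
    rw [e]
    exact gt j
  generalize hn : bv O 3 + m = n at *
  have e0 : c3 0 = 0 := rfl
  have e1 : c3 1 = 1 := rfl
  have e2 : c3 2 = 2 := rfl
  have hsw : ∀ x y z : Fin 10 → K, tri D x y z = tri D x z y := tri_swap23 hD.swap23
  have hsw1 : ∀ x y z : Fin 10 → K, tri D x y z = tri D y x z := tri_swap12 hD.swap12
  -- the value `A`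
  have hA : tri D (row a 0) n n - algebraMap K O (D 0 3 3) ∈ Ideal.span {t} := by
    have h := span_sq_le t (tri_jet D (ju 0) jn jn)
    rw [e0, tri_bv, Algebra.algebraMap_self, RingHom.id_apply] at h
    have h' : t * algebraMap K O (tri D (tv τ 0) (bv K 3) (bv K 3) +
        tri D (bv K 0) m0 (bv K 3) + tri D (bv K 0) (bv K 3) m0) ∈ Ideal.span {t} :=
      Ideal.mul_mem_right _ _ (Ideal.mem_span_singleton_self t)
    have := Ideal.add_mem _ h h'
    convert this using 1
    ring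
  have hAu := hU _ _ hD.alpha hA
  obtain ⟨A', hA'⟩ := hAu.exists_left_inv
  have hz133 : D 1 3 3 = 0 := hD.zero 1 3 3 (by decide) (by decide) (by decide) (by decide)
  have hz233 : D 2 3 3 = 0 := hD.zero 2 3 3 (by decide) (by decide) (by decide) (by decide)
  have hz333 : D 3 3 3 = 0 := hD.zero 3 3 3 (by decide) (by decide) (by decide) (by decide)
  have hB1 : tri D (row a 1) n n - t * algebraMap K O
      (tri D (tv τ 1) (bv K 3) (bv K 3) + 2 * tri D (bv K 1) (bv K 3) m0) ∈
      Ideal.span {t ^ 2} := by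
    have h := tri_jet D (ju 1) jn jn
    rw [e1, tri_bv, Algebra.algebraMap_self, RingHom.id_apply, hz133, map_zero, zero_add,
      hsw (bv K 1) m0 (bv K 3)] at h
    convert h using 4
    ring
  have hB2 : tri D (row a 2) n n - t * algebraMap K O
      (tri D (tv τ 2) (bv K 3) (bv K 3) + 2 * tri D (bv K 2) (bv K 3) m0) ∈
      Ideal.span {t ^ 2} := by
    have h := tri_jet D (ju 2) jn jn
    rw [e2, tri_bv, Algebra.algebraMap_self, RingHom.id_apply, hz233, map_zero, zero_add,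
      hsw (bv K 2) m0 (bv K 3)] at h
    convert h using 4
    ring
  have hB3 : algebraMap K O (1 / 3) * tri D n n n - t * algebraMap K O
      (tri D (bv K 3) (bv K 3) m0) ∈ Ideal.span {t ^ 2} := by
    have h := tri_jet D jn jn jn
    rw [tri_bv, Algebra.algebraMap_self, RingHom.id_apply, hz333, map_zero, zero_add,
      hsw (bv K 3) m0 (bv K 3), hsw1 m0 (bv K 3) (bv K 3), hsw (bv K 3) m0 (bv K 3)] at h
    have h' := Ideal.mul_mem_left _ (algebraMap K O (1 / 3)) h
    have h3' : algebraMap K O (1 / 3) * algebraMap K O (tri D (bv K 3) (bv K 3) m0 +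
        tri D (bv K 3) (bv K 3) m0 + tri D (bv K 3) (bv K 3) m0) =
        algebraMap K O (tri D (bv K 3) (bv K 3) m0) := by
      rw [← map_mul]
      congr 1
      ring
    rw [mul_sub, mul_left_comm, h3'] at h'
    exact h'
  obtain ⟨κ1, hκ1, hκ1t⟩ : ∃ κ1, κ1 * tri D (row a 0) n n = tri D (row a 1) n n ∧
      κ1 - t * algebraMap K O (c 0) ∈ Ideal.span {t ^ 2} := by
    have h : A' * tri D (row a 1) n n * tri D (row a 0) n n = tri D (row a 1) n n := by
      linear_combination tri D (row a 1) n n * hA'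
    exact ⟨_, h, kappa_jet hA hB1 hc0 hAu h⟩
  obtain ⟨κ2, hκ2, hκ2t⟩ : ∃ κ2, κ2 * tri D (row a 0) n n = tri D (row a 2) n n ∧
      κ2 - t * algebraMap K O (c 1) ∈ Ideal.span {t ^ 2} := by
    have h : A' * tri D (row a 2) n n * tri D (row a 0) n n = tri D (row a 2) n n := by
      linear_combination tri D (row a 2) n n * hA'
    exact ⟨_, h, kappa_jet hA hB2 hc1 hAu h⟩
  obtain ⟨κ3, hκ3, hκ3t⟩ : ∃ κ3, κ3 * tri D (row a 0) n n =
      algebraMap K O (1 / 3) * tri D n n n ∧
      κ3 - t * algebraMap K O (c 2) ∈ Ideal.span {t ^ 2} := by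
    have h : A' * (algebraMap K O (1 / 3) * tri D n n n) * tri D (row a 0) n n =
        algebraMap K O (1 / 3) * tri D n n n := by
      linear_combination (algebraMap K O (1 / 3) * tri D n n n) * hA'
    exact ⟨_, h, kappa_jet hA hB3 hc2 hAu h⟩
  have h13 : (3 : O) * algebraMap K O (1 / 3) = 1 := by
    rw [← map_ofNat (algebraMap K O) 3, ← map_mul]
    norm_num
  have hκ3' : 3 * (κ3 * tri D (row a 0) n n) = tri D n n n := by
    rw [hκ3]
    linear_combination tri D n n n * h13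
  -- the residual plane
  obtain ⟨w, hwdef⟩ : ∃ w : Fin 3 → Fin 10 → O,
      w = ![row a 1 - κ1 • row a 0, row a 2 - κ2 • row a 0, n - κ3 • row a 0] := ⟨_, rfl⟩
  have hw := vanish (row a) n ha.plane gm κ1 κ2 κ3 hκ1 hκ2 hκ3' w hwdef
  have w0 : w 0 = row a 1 - κ1 • row a 0 := by rw [hwdef]; rfl
  have w1 : w 1 = row a 2 - κ2 • row a 0 := by rw [hwdef]; rfl
  have w2 : w 2 = n - κ3 • row a 0 := by rw [hwdef]; rfl
  have jw0 := jet_sub_smul (ju 1) (ju 0) hκ1t
  have jw1 := jet_sub_smul (ju 2) (ju 0) hκ2t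
  have jw2 := jet_sub_smul jn (ju 0) hκ3t
  rw [← w0, e0, e1] at jw0
  rw [← w1, e0, e2] at jw1
  rw [← w2, e0] at jw2
  have r01 : row a 0 1 = 0 := by simp [row, bv, tv, c3]
  have r02 : row a 0 2 = 0 := by simp [row, bv, tv, c3]
  have r11 : row a 1 1 = 1 := by simp [row, bv, tv, c3]
  have r12 : row a 1 2 = 0 := by simp [row, bv, tv, c3]
  have r21 : row a 2 1 = 0 := by simp [row, bv, tv, c3]
  have r22 : row a 2 2 = 1 := by simp [row, bv, tv, c3]
  have n1 : n 1 = 0 := by rw [← hn]; simp [bv, g1]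
  have n2 : n 2 = 0 := by rw [← hn]; simp [bv, g2]
  have w01 : w 0 1 = 1 := by rw [w0]; simp [r01, r11]
  have w02 : w 0 2 = 0 := by rw [w0]; simp [r02, r12]
  have w11 : w 1 1 = 0 := by rw [w1]; simp [r01, r21]
  have w12 : w 1 2 = 1 := by rw [w1]; simp [r02, r22]
  have w21 : w 2 1 = 0 := by rw [w2]; simp [r01, n1]
  have w22 : w 2 2 = 0 := by rw [w2]; simp [r02, n2]
  have wt : ∀ (i : Fin 3) (x x₁ : Fin 10 → K) (j : Fin 10), Jet t (w i) x x₁ → x j = 0 →
      w i j - t * algebraMap K O (x₁ j) ∈ Ideal.span {t ^ 2} := by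
    intro i x x₁ j h hx
    have := h j
    rwa [hx, map_zero, zero_add] at this
  have hp : w 0 3 ∈ Ideal.span {t} := mem_of_jet (wt 0 _ _ 3 jw0 (by simp [bv]))
  have hq : w 1 3 ∈ Ideal.span {t} := mem_of_jet (wt 1 _ _ 3 jw1 (by simp [bv]))
  have hr : w 2 3 - 1 ∈ Ideal.span {t ^ 2} := by
    have h := jw2 3
    simpa [bv, h3] using h
  have hru : IsUnit (w 2 3) := by
    refine hU _ 1 one_ne_zero ?_
    rw [map_one]
    exact span_sq_le t hr
  obtain ⟨r', hr'⟩ := hru.exists_left_inv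
  have hr'1 : r' - 1 ∈ Ideal.span {t ^ 2} := by
    have : r' - 1 = - r' * (w 2 3 - 1) := by linear_combination hr'
    rw [this]
    exact Ideal.mul_mem_left _ _ hr
  obtain ⟨M, hM⟩ : ∃ M : Fin 3 → Fin 3 → O,
      M = ![![1, 0, - (w 0 3) * r'], ![0, 1, - (w 1 3) * r'], ![0, 0, r']] := ⟨_, rfl⟩
  have hw' := comb w hw M
  obtain ⟨w', hw'def⟩ : ∃ w' : Fin 3 → Fin 10 → O, w' = fun i => ∑ l, M i l • w l := ⟨_, rfl⟩
  have hw'3 : ∀ i j k, tri D (w' i) (w' j) (w' k) = 0 := by
    intro i j k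
    rw [hw'def]
    exact hw' i j k
  have w'0 : ∀ j, w' 0 j = w 0 j - w 0 3 * r' * w 2 j := by
    intro j
    rw [hw'def, hM]
    simp [Fin.sum_univ_three]
    ring
  have w'1 : ∀ j, w' 1 j = w 1 j - w 1 3 * r' * w 2 j := by
    intro j
    rw [hw'def, hM]
    simp [Fin.sum_univ_three]
    ring
  have w'2 : ∀ j, w' 2 j = r' * w 2 j := by
    intro j
    rw [hw'def, hM]
    simp [Fin.sum_univ_three]
  have hw'δ : ∀ i j : Fin 3, w' i (c3 j + 1) = if j = i then 1 else 0 := by
    have f0 : c3 0 + 1 = 1 := rfl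
    have f1 : c3 1 + 1 = 2 := rfl
    have f2 : c3 2 + 1 = 3 := rfl
    intro i j
    fin_cases i <;> fin_cases j
    · simp [f0, w'0, w01, w21]
    · simp [f1, w'0, w02, w22]
    · simp only [Fin.reduceFinMk, Fin.zero_eta, f2, w'0]
      rw [if_neg (by decide)]
      linear_combination (- w 0 3) * hr'
    · simp [f0, w'1, w11, w21]
    · simp [f1, w'1, w12, w22]
    · simp only [Fin.reduceFinMk, Fin.mk_one, f2, w'1]
      rw [if_neg (by decide)]
      linear_combination (- w 1 3) * hr'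
    · simp [f0, w'2, w21]
    · simp [f1, w'2, w22]
    · simp only [Fin.reduceFinMk, f2, w'2, if_true]
      exact hr'
  refine ⟨fun q : Idx => w' q.1 (Fin.castLE (by norm_num) q.2 + 4), ?_, ?_⟩
  · intro i j k
    rw [row_shift w' hw'δ, row_shift w' hw'δ, row_shift w' hw'δ, tri_shift]
    exact hw'3 i j k
  · rintro ⟨i, k⟩
    obtain ⟨t0, t1, t2⟩ := hτ' k
    obtain ⟨j, hj⟩ : ∃ j : Fin 10, j = Fin.castLE (by norm_num) k + 4 := ⟨_, rfl⟩
    have hj123 : j ≠ 1 ∧ j ≠ 2 ∧ j ≠ 3 := by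
      rw [hj]
      fin_cases k <;> decide
    rw [← hj] at t0 t1 t2
    have b1 : (bv K 1 : Fin 10 → K) j = 0 := by rw [bv_apply, if_neg hj123.1]
    have b2 : (bv K 2 : Fin 10 → K) j = 0 := by rw [bv_apply, if_neg hj123.2.1]
    have b3 : (bv K 3 : Fin 10 → K) j = 0 := by rw [bv_apply, if_neg hj123.2.2]
    have k0 := wt 0 _ _ j jw0 b1
    have k1 := wt 1 _ _ j jw1 b2
    have k2 := wt 2 _ _ j jw2 b3
    have k2' := mem_of_jet k2
    change w' i (Fin.castLE (by norm_num) k + 4) - t * algebraMap K O (τ' (i, k)) ∈ _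
    rw [← hj]
    fin_cases i
    · change w' 0 j - t * algebraMap K O (τ' (0, k)) ∈ _
      rw [w'0, t0]
      have h := Ideal.sub_mem _ k0 (Ideal.mul_mem_left _ r' (mul_mem_sq hp k2'))
      convert h using 1
      ring
    · change w' 1 j - t * algebraMap K O (τ' (1, k)) ∈ _
      rw [w'1, t1]
      have h := Ideal.sub_mem _ k1 (Ideal.mul_mem_left _ r' (mul_mem_sq hq k2'))
      convert h using 1
      ring
    · change w' 2 j - t * algebraMap K O (τ' (2, k)) ∈ _
      rw [w'2, t2]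
      have h := Ideal.add_mem _ k2 (Ideal.mul_mem_right (w 2 j) _ hr'1)
      convert h using 1
      ring

end

end Pool.Agent.Helper56.CY
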